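import Pool.Agent.N343.AS.Stm

/-!
One level of the construction for a flexible remainder.
-/

open Finset

namespace Pool.Agent.N322.AS.Step

open Pool.Agent.N343.AS

theorem Q_mono {i N : ℕ} (h : i ≤ N) : Q i ≤ Q N := by
  induction N with
  | zero =>
    obtain rfl : i = 0 := by omega
    exact le_rfl
  | succ n ih =>
    rcases Nat.lt_or_ge n i with h1 | h1
    · obtain rfl : i = n + 1 := by omega
      exact le_rfl
    · have := ih h1
      have h2 : Q (n + 1) = Q n + (n + 5) := rfl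
      omega

theorem Qge (i : ℕ) : i + 4 ≤ Q i := by
  cases i with
  | zero => exact le_rfl
  | succ n =>
    have h2 : Q (n + 1) = Q n + (n + 5) := rfl
    omega

theorem E_succ (N : ℕ) : E (N + 1) = E N + (Q N + N + L N) := by
  have h1 : E (N + 1) = 2 * E N + Q N + 3 * N + 12 := rfl
  have h2 : L N = E N + 2 * N + 12 := rfl
  omega

theorem Zpos (N : ℕ) : 0 < Z N := by
  unfold Z
  positivity

theorem Zeq (N : ℕ) : Z N = 2 ^ (Q N + N + L N) * Z (N + 1) := by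
  unfold Z
  rw [E_succ, pow_add ((1 : ℝ) / 2)]
  have : (2 : ℝ) ^ (Q N + N + L N) * (1 / 2) ^ (Q N + N + L N) = 1 := by
    rw [← mul_pow]; norm_num
  calc ((1 : ℝ) / 2) ^ (E N) = (1 / 2) ^ (E N) * (2 ^ (Q N + N + L N) * (1 / 2) ^ (Q N + N + L N)) := by
        rw [this, mul_one]
    _ = _ := by ring

theorem Upos (N i : ℕ) : 0 < U N i := by
  unfold U
  positivity

theorem Upow {N i : ℕ} (h : i ≤ N) : U N i * 2 ^ (Q i) = 2 ^ (Q N + N + L N) := by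
  unfold U
  rw [← pow_add]
  congr 1
  have := Q_mono h
  omega

theorem UN {N i : ℕ} : 2 ^ (N + L N) ≤ U N i := by
  unfold U
  exact Nat.pow_le_pow_right (by norm_num) (by omega)

/-- the digit of `W` when `W` is near `V` -/
theorem digit {V W u D b s c : ℕ} (hu : 0 < u) (hs : D = u * (b * s)) (hV : V < D)
    (h1 : V ≤ W + u) (h2 : W ≤ V + u) (h3 : c + 1 ≤ V / u % b) (h4 : V / u % b + 2 + c ≤ b) :
    W < D ∧ c ≤ W / u % b ∧ W / u % b + 1 + c ≤ b := by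
  have hb : 0 < b := by omega
  set y := V / u with hy
  have hyV : u * y ≤ V := Nat.mul_div_le V u
  have hyV' : V < u * (y + 1) := Nat.lt_mul_div_succ V hu
  set d := y % b with hd
  set t := y / b with ht
  have hyt : b * t + d = y := Nat.div_add_mod y b
  have hyl : y < b * s := by
    by_contra hcon
    have : u * (b * s) ≤ u * y := Nat.mul_le_mul_left u (by omega)
    omega
  have hts : t + 1 ≤ s := by
    by_contra hcon
    have : b * s ≤ b * t := Nat.mul_le_mul_left b (by omega)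
    omega
  have hbs : b * (t + 1) ≤ b * s := Nat.mul_le_mul_left b hts
  have hbt : b * (t + 1) = b * t + b := by ring
  have hW1 : W < u * (y + 2) := by
    have : u * (y + 2) = u * (y + 1) + u := by ring
    omega
  have hW2 : u * (y - 1) ≤ W := by
    have h5 : 1 ≤ y := by omega
    have : u * y = u * (y - 1) + u := by
      obtain ⟨z, hz⟩ : ∃ z, y = z + 1 := ⟨y - 1, by omega⟩
      rw [hz]; simp; ring
    omega
  have hq1 : W / u < y + 2 := (Nat.div_lt_iff_lt_mul hu).2 (by rw [mul_comm]; exact hW1)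
  have hq2 : y - 1 ≤ W / u := (Nat.le_div_iff_mul_le hu).2 (by rw [mul_comm]; exact hW2)
  have hWD : W < D := by
    have : u * (y + 2) ≤ u * (b * s) := Nat.mul_le_mul_left u (by omega)
    omega
  obtain ⟨f, hf⟩ : ∃ f, W / u = b * t + f := ⟨W / u - b * t, by omega⟩
  have hfb : f < b := by omega
  have hmod : W / u % b = f := by
    rw [hf, Nat.mul_add_mod, Nat.mod_eq_of_lt hfb]
  refine ⟨hWD, ?_, ?_⟩
  · rw [hmod]; omega
  · rw [hmod]; omega

/-- the choice of `W` and `j` -/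
theorem choice {N K i V : ℕ} {b : ℝ} (hi : i ≤ N) (hb : |b| ≤ 2 ^ K - 2)
    (hV : 2 ^ (N + K) ≤ V) :
    ∃ W r : ℕ, 2 ^ N ∣ W ∧ V ≤ W + 2 ^ (N + K) ∧ W ≤ V + 2 ^ (N + K) ∧ r < 2 ^ i ∧
      ∃ j : ℤ, j = (V : ℤ) - W - r * 2 ^ (N - i) ∧ |j| ≤ 2 ^ (N + K) ∧
        -(1 / 2) ^ i ≤ b - j * (1 / 2) ^ N ∧ b - j * (1 / 2) ^ N ≤ 0 := by
  have h2N : (0 : ℝ) < 2 ^ N := by positivity
  have hbb := abs_le.1 hb
  set w : ℤ := ⌊(V : ℝ) / 2 ^ N - b⌋ with hw
  have hw1 : (w : ℝ) ≤ (V : ℝ) / 2 ^ N - b := Int.floor_le _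
  have hw2 : (V : ℝ) / 2 ^ N - b < w + 1 := Int.lt_floor_add_one _
  have e1 : (w : ℝ) * 2 ^ N ≤ V - b * 2 ^ N := by
    have := mul_le_mul_of_nonneg_right hw1 h2N.le
    rw [sub_mul, div_mul_cancel₀ _ h2N.ne'] at this
    exact this
  have e2 : V - b * 2 ^ N < (w : ℝ) * 2 ^ N + 2 ^ N := by
    have := mul_lt_mul_of_pos_right hw2 h2N
    rw [sub_mul, div_mul_cancel₀ _ h2N.ne'] at this
    linarith
  have hpow : (2 : ℝ) ^ (N + K) = 2 ^ K * 2 ^ N := by rw [pow_add]; ring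
  have b1 : b * 2 ^ N ≤ 2 ^ (N + K) - 2 * 2 ^ N := by
    have := mul_le_mul_of_nonneg_right hbb.2 h2N.le
    rw [hpow]; linarith
  have b2 : -(2 ^ (N + K) - 2 * 2 ^ N) ≤ b * 2 ^ N := by
    have := mul_le_mul_of_nonneg_right hbb.1 h2N.le
    rw [hpow]; linarith
  have hwV : (V : ℤ) ≤ w * 2 ^ N + 2 ^ (N + K) := by
    have : (V : ℝ) ≤ (w : ℝ) * 2 ^ N + 2 ^ (N + K) := by linarith
    exact_mod_cast this
  have hwV2 : w * 2 ^ N ≤ (V : ℤ) + 2 ^ (N + K) := by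
    have : (w : ℝ) * 2 ^ N ≤ V + 2 ^ (N + K) := by linarith
    exact_mod_cast this
  have hw0 : 0 ≤ w := by
    by_contra hcon
    have h3 : (w : ℝ) + 1 ≤ 0 := by
      have : w + 1 ≤ 0 := by omega
      exact_mod_cast this
    have h4 : ((w : ℝ) + 1) * 2 ^ N ≤ 0 := mul_nonpos_of_nonpos_of_nonneg h3 h2N.le
    have h5 : ((2 : ℝ)) ^ (N + K) ≤ V := by exact_mod_cast hV
    linarith
  obtain ⟨w', hw'⟩ := Int.eq_ofNat_of_zero_le hw0
  set x : ℝ := (V : ℝ) / 2 ^ N - w - b with hx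
  have hx0 : 0 ≤ x := by rw [hx]; linarith
  have hx1 : x < 1 := by rw [hx]; linarith
  have h2i : (0 : ℝ) < 2 ^ i := by positivity
  have hxi : 0 ≤ x * 2 ^ i := by positivity
  set r : ℕ := ⌊x * 2 ^ i⌋₊ with hr
  have hr1 : (r : ℝ) ≤ x * 2 ^ i := Nat.floor_le hxi
  have hr2 : x * 2 ^ i < r + 1 := Nat.lt_floor_add_one _
  have hri : r < 2 ^ i := by
    have : (r : ℝ) < 2 ^ i := lt_of_le_of_lt hr1 (by nlinarith)
    exact_mod_cast this
  have hNi : (2 : ℝ) ^ N = 2 ^ (N - i) * 2 ^ i := by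
    rw [← pow_add]; congr 1; omega
  have hjr : ((V : ℝ) - w' * 2 ^ N - r * 2 ^ (N - i)) * (1 / 2) ^ N = b + x - r * (1 / 2) ^ i := by
    have hwr : (w : ℝ) = w' := by rw [hw']; simp
    rw [hx, hwr, one_div, inv_pow, inv_pow]
    have h2Ni : (0 : ℝ) < 2 ^ (N - i) := by positivity
    have h3 : ((2 : ℝ) ^ (N - i) * (2 ^ N)⁻¹) = (2 ^ i)⁻¹ := by
      rw [hNi, mul_inv]
      field_simp
    have h4 : (2 : ℝ) ^ N * (2 ^ N)⁻¹ = 1 := mul_inv_cancel₀ h2N.ne'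
    calc ((V : ℝ) - w' * 2 ^ N - r * 2 ^ (N - i)) * (2 ^ N)⁻¹
        = V * (2 ^ N)⁻¹ - w' * (2 ^ N * (2 ^ N)⁻¹) - r * (2 ^ (N - i) * (2 ^ N)⁻¹) := by ring
      _ = _ := by rw [h3, h4, div_eq_mul_inv]; ring
  have hhi : (0 : ℝ) < (1 / 2) ^ i := by positivity
  have hii : (2 : ℝ) ^ i * (1 / 2) ^ i = 1 := by rw [← mul_pow]; norm_num
  have g1 : (r : ℝ) * (1 / 2) ^ i ≤ x := by
    have := mul_le_mul_of_nonneg_right hr1 hhi.le
    rwa [mul_assoc, hii, mul_one] at this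
  have g2 : x < (r : ℝ) * (1 / 2) ^ i + (1 / 2) ^ i := by
    have := mul_lt_mul_of_pos_right hr2 hhi
    rw [mul_assoc, hii, mul_one] at this
    linarith
  have g3 : ((1 : ℝ) / 2) ^ i ≤ 1 := pow_le_one₀ (by norm_num) (by norm_num)
  have hcast : (((V : ℤ) - (w' * 2 ^ N : ℕ) - r * 2 ^ (N - i) : ℤ) : ℝ)
      = (V : ℝ) - w' * 2 ^ N - r * 2 ^ (N - i) := by push_cast; ring
  have hjb : |((V : ℝ) - w' * 2 ^ N - r * 2 ^ (N - i))| ≤ 2 ^ (N + K) := by
    have hNN : ((1 : ℝ) / 2) ^ N * 2 ^ N = 1 := by rw [← mul_pow]; norm_num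
    have : ((V : ℝ) - w' * 2 ^ N - r * 2 ^ (N - i)) = (b + x - r * (1 / 2) ^ i) * 2 ^ N := by
      rw [← hjr, mul_assoc, hNN, mul_one]
    rw [this]
    have k1 : 0 ≤ (x - r * (1 / 2) ^ i) * 2 ^ N := mul_nonneg (by linarith) h2N.le
    have k2 : (x - r * (1 / 2) ^ i) * 2 ^ N ≤ 1 * 2 ^ N :=
      mul_le_mul_of_nonneg_right (by linarith) h2N.le
    have k3 : (b + x - r * (1 / 2) ^ i) * 2 ^ N = b * 2 ^ N + (x - r * (1 / 2) ^ i) * 2 ^ N := by
      ring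
    rw [abs_le, k3]
    constructor <;> linarith
  refine ⟨w' * 2 ^ N, r, Dvd.intro_left w' rfl, ?_, ?_, hri, (V : ℤ) - (w' * 2 ^ N : ℕ) - r * 2 ^ (N - i),
    rfl, ?_, ?_, ?_⟩
  · have : (V : ℤ) ≤ (w' : ℤ) * 2 ^ N + 2 ^ (N + K) := by rw [hw'] at hwV; exact_mod_cast hwV
    exact_mod_cast this
  · have : (w' : ℤ) * 2 ^ N ≤ (V : ℤ) + 2 ^ (N + K) := by rw [hw'] at hwV2; exact_mod_cast hwV2
    exact_mod_cast this
  · have : (|((V : ℤ) - (w' * 2 ^ N : ℕ) - r * 2 ^ (N - i) : ℤ)| : ℝ) ≤ 2 ^ (N + K) := by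
      rw [hcast]; exact hjb
    exact_mod_cast this
  · rw [hcast, hjr]; linarith
  · rw [hcast, hjr]; linarith

attribute [local irreducible] E Q L U Z sh

set_option maxHeartbeats 400000 in
theorem main (hP : S_POS) (hM : S_MIX) (hL : S_LOW) : S_STEP := by
  intro N i a b hi hG hb σ hσ
  obtain ⟨ha0, ha1, hd1, hd2⟩ := hG
  set z := Z (N + 1) with hz
  have hz0 : 0 < z := Zpos (N + 1)
  have hZN : Z N = 2 ^ (Q N + N + L N) * z := Zeq N
  have haz : 0 ≤ a / z := div_nonneg ha0 hz0.le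
  set V : ℕ := ⌊a / z⌋₊ with hV
  have hVi : ⌊a / z⌋ = (V : ℤ) := (Int.natCast_floor_eq_floor haz).symm
  have hVD : V < 2 ^ (Q N + N + L N) := by
    rw [hV, Nat.floor_lt haz, div_lt_iff₀ hz0]
    push_cast
    rw [← hZN]; exact ha1
  have hU := Upow hi
  have hU0 := Upos N i
  have hy : ⌊a * 2 ^ (Q i) / Z N⌋ = ((V / U N i : ℕ) : ℤ) := by
    have h1 : a * 2 ^ (Q i) / Z N = a / z / (U N i : ℝ) := by
      have h2 : (2 : ℝ) ^ (Q N + N + L N) = U N i * 2 ^ (Q i) := by exact_mod_cast hU.symm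
      have h3 : (U N i : ℝ) ≠ 0 := by exact_mod_cast hU0.ne'
      rw [hZN, h2]
      field_simp
    have h4 : 0 ≤ a / z / (U N i : ℝ) := div_nonneg haz (Nat.cast_nonneg _)
    rw [h1, ← Int.natCast_floor_eq_floor h4, Nat.floor_div_natCast]
  rw [hy] at hd1 hd2
  have hd1' : 2 ^ (i + 1) + 1 ≤ V / U N i % 2 ^ (i + 4) := by exact_mod_cast hd1
  have hd2' : V / U N i % 2 ^ (i + 4) + 2 + 2 ^ (i + 1) ≤ 2 ^ (i + 4) := by
    have : ((V / U N i % 2 ^ (i + 4) : ℕ) : ℤ) + 2 + 2 ^ (i + 1) ≤ 2 ^ (i + 4) := by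
      push_cast at hd2 ⊢
      linarith
    exact_mod_cast this
  have hVU : 2 ^ (N + L N) ≤ V := by
    have h1 : 1 ≤ V / U N i := by
      exact ((Nat.le_add_left 1 _).trans hd1').trans (Nat.mod_le (V / U N i) (2 ^ (i + 4)))
    have h2 : U N i ≤ V := by
      by_contra hcon
      rw [Nat.div_eq_of_lt (by omega)] at h1
      omega
    exact UN.trans h2
  obtain ⟨W, r, hW1, hW2, hW3, hr, j, hj, hjb, hj1, hj2⟩ := choice hi hb hVU
  have hDs : 2 ^ (Q N + N + L N) = U N i * (2 ^ (i + 4) * 2 ^ (Q i - (i + 4))) := by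
    rw [← hU, ← pow_add]
    congr 2
    have := Qge i
    omega
  obtain ⟨hWD, hc1, hc2⟩ := digit hU0 hDs hVD (hW2.trans (Nat.add_le_add_left UN _))
    (hW3.trans (Nat.add_le_add_left UN _)) hd1' hd2'
  have hEE : E (N + 1) - E N = Q N + N + L N := by
    rw [E_succ]; omega
  obtain ⟨hdig, lam, hlam, hWs⟩ := hM N W hW1 (by rw [hEE]; exact hWD)
  have key : ∀ l : Fin (N + 1), ∃ Sl : Finset (Fin (2 ^ ((l : ℕ) + 4) - 1)),
      Sl.card = (W / U N l) % 2 ^ ((l : ℕ) + 4) ∧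
      ∑ k ∈ Sl, cls N l k = if (l : ℕ) = i then -(σ : ℝ) * sh i + r * 2 ^ (N - i) else 0 := by
    intro l
    have hl : (l : ℕ) ≤ N := Nat.lt_succ_iff.1 l.2
    by_cases hli : (l : ℕ) = i
    · rw [if_pos hli]
      have hP2 := (hP N l hl).2 ((W / U N l) % 2 ^ ((l : ℕ) + 4)) (by rw [hli]; exact hc1)
        (by rw [hli]; omega) (-σ) (by rw [abs_neg]; exact hσ) r (by rw [hli]; exact hr)
      obtain ⟨S, hS1, hS2⟩ := hP2
      refine ⟨S, hS1, ?_⟩
      rw [hS2, hli]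
      push_cast
      ring
    · rw [if_neg hli]
      exact (hP N l hl).1 _ (hdig l hl)
  choose Sl hcard hsum using key
  obtain ⟨S', hS'⟩ := hL (L N) lam hlam
  have hsumT : ∑ t ∈ (Finset.univ.sigma Sl).disjSum S', cT N t
      = ((W : ℝ) + (-(σ : ℝ) * sh i + r * 2 ^ (N - i))) * z := by
    rw [Finset.sum_disjSum, Finset.sum_sigma]
    have h1 : ∀ l : Fin (N + 1), ∑ k ∈ Sl l, cT N (Sum.inl ⟨l, k⟩)
        = (((W / U N l) % 2 ^ ((l : ℕ) + 4) * U N l : ℕ) : ℝ) * z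
          + (if (l : ℕ) = i then -(σ : ℝ) * sh i + r * 2 ^ (N - i) else 0) * z := by
      intro l
      rw [← hsum l, ← hcard l]
      show ∑ k ∈ Sl l, ((U N l : ℝ) + cls N l k) * Z (N + 1) = _
      rw [← Finset.sum_mul, Finset.sum_add_distrib, Finset.sum_const, nsmul_eq_mul]
      push_cast
      ring
    rw [Finset.sum_congr rfl (fun l _ => h1 l), Finset.sum_add_distrib, ← Finset.sum_mul,
      ← Finset.sum_mul]
    have h2 : ∑ l : Fin (N + 1), (((W / U N l) % 2 ^ ((l : ℕ) + 4) * U N l : ℕ) : ℝ)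
        = ∑ l ∈ range (N + 1), (((W / U N l) % 2 ^ (l + 4) * U N l : ℕ) : ℝ) :=
      Fin.sum_univ_eq_sum_range (fun l => (((W / U N l) % 2 ^ (l + 4) * U N l : ℕ) : ℝ)) (N + 1)
    have h3 : ∑ l : Fin (N + 1), (if (l : ℕ) = i then -(σ : ℝ) * sh i + r * 2 ^ (N - i) else 0)
        = -(σ : ℝ) * sh i + r * 2 ^ (N - i) := by
      rw [Fin.sum_univ_eq_sum_range
        (fun l => if l = i then -(σ : ℝ) * sh i + r * 2 ^ (N - i) else 0) (N + 1),
        Finset.sum_ite_eq', if_pos (Finset.mem_range.2 (by omega))]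
    have h4 : ∑ m ∈ S', cT N (Sum.inr m) = (lam : ℝ) * 2 ^ N * z := by
      show ∑ m ∈ S', (2 : ℝ) ^ (N + (m : ℕ)) * z = _
      rw [← hS', Finset.sum_mul, Finset.sum_mul]
      refine Finset.sum_congr rfl fun m _ => ?_
      rw [pow_add]; ring
    rw [h2, h3, h4]
    have h5 : (W : ℝ) = ∑ l ∈ range (N + 1), (((W / U N l) % 2 ^ (l + 4) * U N l : ℕ) : ℝ)
        + lam * 2 ^ N := by
      conv_lhs => rw [hWs]
      push_cast
      ring
    rw [h5]
    ring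
  refine ⟨(Finset.univ.sigma Sl).disjSum S', j, hjb, hj1, hj2, ?_⟩
  rw [hsumT, hVi]
  have hjR : (j : ℝ) = (V : ℝ) - W - r * 2 ^ (N - i) := by
    rw [hj]; push_cast; ring
  rw [hjR]
  push_cast
  ring

end Pool.Agent.N322.AS.Step
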